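import Mathlib
import Pool.Agent.Sx28.NBd.Over

/-!
# A function in `A^∞` of the ball with natural boundary on every affine disc

`f(z) = ∑ exp(-√d_j) ⟨z, w_j⟩^{d_j}` with `d_j = (j+1)!` and `(w_j)` a sequence in the closed unit
ball in which every term of a dense sequence occurs infinitely often.  If `f ∘ Φ` continued
analytically across a point of the circle, then the partial sums of the lacunary series of
`f ∘ Φ` would converge at points outside the disc (overconvergence), which is impossible.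
-/

open Metric Set Filter Topology
open scoped Nat

namespace Pool.Agent.Results.MP_ca9574_an.NaturalBoundary

/-- `C^n` with its Euclidean (Hermitian) norm. -/
abbrev Cn (n : ℕ) := EuclideanSpace ℂ (Fin n)

/-- The complex partial derivative `∂f/∂z_i`. -/
noncomputable def pd {n : ℕ} (i : Fin n) (f : Cn n → ℂ) : Cn n → ℂ :=
  fun z => lineDeriv ℂ f z (EuclideanSpace.single i 1)

/-- Iterated complex partial derivatives `∂/∂z_{i_1} … ∂/∂z_{i_k} f`. -/
noncomputable def iterPD {n : ℕ} : List (Fin n) → (Cn n → ℂ) → Cn n → ℂ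
  | [], f => f
  | i :: l, f => pd i (iterPD l f)

/-- The ball algebra `A(B)`: continuous on the closed unit ball and holomorphic in the open one. -/
def InBallAlgebra {n : ℕ} (f : Cn n → ℂ) : Prop :=
  ContinuousOn f (closedBall 0 1) ∧ DifferentiableOn ℂ f (ball 0 1)

/-- `A^∞(B)`: holomorphic in the open unit ball, and every partial derivative of every order
extends continuously to the closed ball. -/
def InAInfinity {n : ℕ} (f : Cn n → ℂ) : Prop :=
  DifferentiableOn ℂ f (ball 0 1) ∧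
    ∀ l : List (Fin n), ∃ g : Cn n → ℂ, ContinuousOn g (closedBall 0 1) ∧
      ∀ z ∈ ball (0 : Cn n) 1, iterPD l f z = g z

/-- `g` (holomorphic in the unit disc) has the unit circle as its natural boundary: near no point
`τ` of the circle does it agree, inside the unit disc, with a function holomorphic in a disc
around `τ`. -/
def HasNaturalBoundary (g : ℂ → ℂ) : Prop :=
  ∀ τ : ℂ, ‖τ‖ = 1 → ¬ ∃ r : ℝ, 0 < r ∧ ∃ h : ℂ → ℂ, DifferentiableOn ℂ h (ball τ r) ∧
    ∀ t ∈ ball τ r ∩ ball (0 : ℂ) 1, h t = g t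

/-- Property (NB): `f ∘ Φ` has the unit circle as its natural boundary, for every nonconstant
complex affine `Φ(t) = a + t b` that maps the unit circle into the unit sphere. -/
def HasNB {n : ℕ} (f : Cn n → ℂ) : Prop :=
  ∀ a b : Cn n, b ≠ 0 → (∀ t : ℂ, ‖t‖ = 1 → ‖a + t • b‖ = 1) →
    HasNaturalBoundary (fun t => f (a + t • b))

/-! ### Lacunary series of powers of linear forms -/

/-- `∑ γ_j ⟨z, w_j⟩^{m_j}` -/
noncomputable def ser {n : ℕ} (w : ℕ → Cn n) (γ : ℕ → ℂ) (m : ℕ → ℕ) (z : Cn n) : ℂ :=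
  ∑' j, γ j * (inner ℂ (w j) z) ^ (m j)

/-- Admissible data. -/
def Adm (γ : ℕ → ℂ) (m : ℕ → ℕ) : Prop :=
  (∀ q : ℕ, Summable (fun j => ‖γ j‖ * ((j + 1)! : ℝ) ^ q)) ∧ ∀ j, m j ≤ (j + 1)!

theorem inner_le {n : ℕ} {w z : Cn n} (hw : ‖w‖ ≤ 1) (hz : ‖z‖ ≤ 1) : ‖inner ℂ w z‖ ≤ 1 :=
  (norm_inner_le_norm w z).trans (mul_le_one₀ hw (norm_nonneg _) hz)

theorem ser_continuousOn {n : ℕ} {w : ℕ → Cn n} (hw : ∀ j, ‖w j‖ ≤ 1) {γ : ℕ → ℂ} {m : ℕ → ℕ}
    (h : Adm γ m) : ContinuousOn (ser w γ m) (closedBall 0 1) := by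
  have h0 : Summable (fun j => ‖γ j‖) := by simpa using h.1 0
  refine continuousOn_tsum (u := fun j => ‖γ j‖) (fun j => ?_) h0 (fun j z hz => ?_)
  · exact (continuous_const.mul ((continuous_const.inner continuous_id).pow _)).continuousOn
  · rw [norm_mul, norm_pow]
    refine mul_le_of_le_one_right (norm_nonneg _) (pow_le_one₀ (norm_nonneg _) ?_)
    exact inner_le (hw j) (by simpa using hz)

theorem ser_hasFDerivAt {n : ℕ} {w : ℕ → Cn n} (hw : ∀ j, ‖w j‖ ≤ 1) {γ : ℕ → ℂ} {m : ℕ → ℕ}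
    (h : Adm γ m) {z : Cn n} (hz : z ∈ ball (0 : Cn n) 1) :
    HasFDerivAt (ser w γ m)
      (∑' j, (γ j * ((m j : ℂ) * (inner ℂ (w j) z) ^ (m j - 1))) • innerSL ℂ (w j)) z := by
  have h1 : Summable (fun j => ‖γ j‖ * ((j + 1)! : ℝ)) := by simpa using h.1 1
  have h0 : Summable (fun j => ‖γ j‖) := by simpa using h.1 0
  refine hasFDerivAt_tsum_of_isPreconnected (u := fun j => ‖γ j‖ * ((j + 1)! : ℝ)) h1
    isOpen_ball (convex_ball _ _).isPreconnected
    (f := fun j z => γ j * (inner ℂ (w j) z) ^ (m j))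
    (f' := fun j z => (γ j * ((m j : ℂ) * (inner ℂ (w j) z) ^ (m j - 1))) • innerSL ℂ (w j))
    (fun j x hx => ?_) (fun j x hx => ?_) (mem_ball_self one_pos) ?_ hz
  · have hd : HasFDerivAt (fun y : Cn n => inner ℂ (w j) y) (innerSL ℂ (w j)) x :=
      (innerSL ℂ (w j)).hasFDerivAt
    have := (hd.pow (m j)).const_mul (γ j)
    rw [smul_smul, nsmul_eq_mul] at this
    exact this
  · rw [norm_smul, innerSL_apply_norm, norm_mul, norm_mul, norm_pow, Complex.norm_natCast]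
    have hx' : ‖x‖ ≤ 1 := by
      have : ‖x‖ < 1 := by simpa using hx
      exact this.le
    have e1 : ‖inner ℂ (w j) x‖ ^ (m j - 1) ≤ 1 := pow_le_one₀ (norm_nonneg _) (inner_le (hw j) hx')
    have e2 : (m j : ℝ) ≤ ((j + 1)! : ℝ) := by exact_mod_cast h.2 j
    calc ‖γ j‖ * ((m j : ℝ) * ‖inner ℂ (w j) x‖ ^ (m j - 1)) * ‖w j‖
        ≤ ‖γ j‖ * (((j + 1)! : ℝ) * 1) * 1 := by
          gcongr
          exact hw j
      _ = _ := by ring
  · apply Summable.of_norm_bounded h0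
    intro j
    rw [norm_mul, norm_pow]
    refine mul_le_of_le_one_right (norm_nonneg _) (pow_le_one₀ (norm_nonneg _) ?_)
    exact inner_le (hw j) (by simp)

theorem ser_differentiableOn {n : ℕ} {w : ℕ → Cn n} (hw : ∀ j, ‖w j‖ ≤ 1) {γ : ℕ → ℂ} {m : ℕ → ℕ}
    (h : Adm γ m) : DifferentiableOn ℂ (ser w γ m) (ball 0 1) := fun _ hz =>
  (ser_hasFDerivAt hw h hz).differentiableAt.differentiableWithinAt

theorem pd_ser {n : ℕ} {w : ℕ → Cn n} (hw : ∀ j, ‖w j‖ ≤ 1) {γ : ℕ → ℂ} {m : ℕ → ℕ}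
    (h : Adm γ m) (i : Fin n) {z : Cn n} (hz : z ∈ ball (0 : Cn n) 1) :
    pd i (ser w γ m) z =
      ser w (fun j => γ j * ((m j : ℂ) * inner ℂ (w j) (EuclideanSpace.single i 1)))
        (fun j => m j - 1) z := by
  have h1 : Summable (fun j => ‖γ j‖ * ((j + 1)! : ℝ)) := by simpa using h.1 1
  have hz' : ‖z‖ ≤ 1 := by
    have : ‖z‖ < 1 := by simpa using hz
    exact this.le
  have hs : Summable (fun j => (γ j * ((m j : ℂ) * (inner ℂ (w j) z) ^ (m j - 1))) •
      innerSL ℂ (w j)) := by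
    apply Summable.of_norm_bounded h1
    intro j
    rw [norm_smul, innerSL_apply_norm, norm_mul, norm_mul, norm_pow, Complex.norm_natCast]
    have e1 : ‖inner ℂ (w j) z‖ ^ (m j - 1) ≤ 1 := pow_le_one₀ (norm_nonneg _) (inner_le (hw j) hz')
    have e2 : (m j : ℝ) ≤ ((j + 1)! : ℝ) := by exact_mod_cast h.2 j
    calc ‖γ j‖ * ((m j : ℝ) * ‖inner ℂ (w j) z‖ ^ (m j - 1)) * ‖w j‖
        ≤ ‖γ j‖ * (((j + 1)! : ℝ) * 1) * 1 := by
          gcongr
          exact hw j
      _ = _ := by ring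
  unfold pd
  rw [(ser_hasFDerivAt hw h hz).hasLineDerivAt (EuclideanSpace.single i 1) |>.lineDeriv]
  unfold ser
  change (ContinuousLinearMap.apply ℂ ℂ (EuclideanSpace.single i (1 : ℂ))) (∑' j,
    (γ j * ((m j : ℂ) * (inner ℂ (w j) z) ^ (m j - 1))) • innerSL ℂ (w j)) = _
  rw [ContinuousLinearMap.map_tsum _ hs]
  apply tsum_congr
  intro j
  simp only [ContinuousLinearMap.apply_apply, _root_.smul_apply, innerSL_apply_apply,
    smul_eq_mul]
  ring

theorem adm_pd {n : ℕ} {w : ℕ → Cn n} (hw : ∀ j, ‖w j‖ ≤ 1) {γ : ℕ → ℂ} {m : ℕ → ℕ}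
    (h : Adm γ m) (i : Fin n) :
    Adm (fun j => γ j * ((m j : ℂ) * inner ℂ (w j) (EuclideanSpace.single i 1)))
      (fun j => m j - 1) := by
  refine ⟨fun q => ?_, fun j => (Nat.sub_le _ _).trans (h.2 j)⟩
  refine Summable.of_nonneg_of_le (fun j => by positivity) (fun j => ?_) (h.1 (q + 1))
  have e1 : ‖inner ℂ (w j) (EuclideanSpace.single i (1 : ℂ))‖ ≤ 1 :=
    inner_le (hw j) (by simp)
  have e2 : (m j : ℝ) ≤ ((j + 1)! : ℝ) := by exact_mod_cast h.2 j
  rw [norm_mul, norm_mul, Complex.norm_natCast]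
  calc ‖γ j‖ * ((m j : ℝ) * ‖inner ℂ (w j) (EuclideanSpace.single i (1 : ℂ))‖) * ((j + 1)! : ℝ) ^ q
      ≤ ‖γ j‖ * (((j + 1)! : ℝ) * 1) * ((j + 1)! : ℝ) ^ q := by gcongr
    _ = _ := by ring

theorem iterPD_ser {n : ℕ} {w : ℕ → Cn n} (hw : ∀ j, ‖w j‖ ≤ 1) {γ : ℕ → ℂ} {m : ℕ → ℕ}
    (h : Adm γ m) (l : List (Fin n)) : ∃ γ' : ℕ → ℂ, ∃ m' : ℕ → ℕ, Adm γ' m' ∧
      ∀ z ∈ ball (0 : Cn n) 1, iterPD l (ser w γ m) z = ser w γ' m' z := by
  induction l with
  | nil => exact ⟨γ, m, h, fun z _ => rfl⟩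
  | cons i l ih =>
    obtain ⟨γ', m', h', he⟩ := ih
    refine ⟨_, _, adm_pd hw h' i, fun z hz => ?_⟩
    rw [← pd_ser hw h' i hz]
    change lineDeriv ℂ _ z _ = lineDeriv ℂ _ z _
    apply Filter.EventuallyEq.lineDeriv_eq
    filter_upwards [isOpen_ball.mem_nhds hz] with x hx
    exact he x hx

/-! ### The function -/

/-- a sequence in the closed ball; every term of a dense sequence occurs infinitely often -/
noncomputable def wseq (n : ℕ) (j : ℕ) : Cn n :=
  ((TopologicalSpace.denseSeq (closedBall (0 : Cn n) 1) (Nat.unpair j).1 :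
    closedBall (0 : Cn n) 1) : Cn n)

instance (n : ℕ) : Nonempty (closedBall (0 : Cn n) 1) := ⟨⟨0, by simp⟩⟩

theorem wseq_le (n j : ℕ) : ‖wseq n j‖ ≤ 1 := by
  exact mem_closedBall_zero_iff.1
    (TopologicalSpace.denseSeq (closedBall (0 : Cn n) 1) (Nat.unpair j).1).2

/-- coefficients -/
noncomputable def coef (j : ℕ) : ℝ := Real.exp (-Real.sqrt ((j + 1)! : ℝ))

theorem coef_summable (q : ℕ) : Summable (fun j => coef j * ((j + 1)! : ℝ) ^ q) := by
  have h1 : Summable (fun j : ℕ => ((2 * (q + 1))! : ℝ) * ((1 : ℝ) ^ (j + 1) / ((j + 1)! : ℝ))) :=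
    (((summable_nat_add_iff 1).2 (Real.summable_pow_div_factorial 1))).mul_left _
  refine Summable.of_nonneg_of_le (fun j => ?_) (fun j => ?_) h1
  · unfold coef; positivity
  · set d : ℝ := ((j + 1)! : ℝ) with hd
    have hd0 : 0 < d := by rw [hd]; exact_mod_cast Nat.factorial_pos _
    have h2 := Real.pow_div_factorial_le_exp (Real.sqrt d) (Real.sqrt_nonneg d) (2 * (q + 1))
    have h3 : Real.sqrt d ^ (2 * (q + 1)) = d ^ (q + 1) := by
      rw [pow_mul, Real.sq_sqrt hd0.le]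
    rw [h3, div_le_iff₀ (by positivity)] at h2
    unfold coef
    rw [← hd, Real.exp_neg, one_pow, one_div]
    have he : 0 < Real.exp (Real.sqrt d) := Real.exp_pos _
    rw [inv_mul_eq_div, div_le_iff₀ he]
    rw [mul_assoc, inv_mul_eq_div, mul_div_assoc', le_div_iff₀ hd0]
    calc d ^ q * d = d ^ (q + 1) := by ring
      _ ≤ _ := h2
      _ = _ := by ring

/-- The function. -/
noncomputable def nbFun (n : ℕ) : Cn n → ℂ :=
  ser (wseq n) (fun j => (coef j : ℂ)) (fun j => (j + 1)!)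

theorem adm_nb : Adm (fun j => (coef j : ℂ)) (fun j => (j + 1)!) := by
  refine ⟨fun q => ?_, fun j => le_rfl⟩
  refine (coef_summable q).congr (fun j => ?_)
  rw [Complex.norm_real, Real.norm_eq_abs, abs_of_pos (by unfold coef; positivity)]

/-! ### Affine discs -/

theorem affine_norm {n : ℕ} {a b : Cn n} (h : ∀ t : ℂ, ‖t‖ = 1 → ‖a + t • b‖ = 1) :
    ‖a‖ ^ 2 + ‖b‖ ^ 2 = 1 ∧ ∀ t : ℂ, ‖a + t • b‖ ^ 2 = ‖a‖ ^ 2 + ‖t‖ ^ 2 * ‖b‖ ^ 2 := by
  have key : ∀ t : ℂ, ‖a + t • b‖ ^ 2 =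
      ‖a‖ ^ 2 + 2 * (t * inner ℂ a b).re + ‖t‖ ^ 2 * ‖b‖ ^ 2 := by
    intro t
    rw [norm_add_sq (𝕜 := ℂ), inner_smul_right, norm_smul, mul_pow]
    rfl
  have h1 := key 1
  have h2 := key (-1)
  have h3 := key Complex.I
  have h4 := key (-Complex.I)
  rw [h _ (by simp)] at h1 h2 h3 h4
  simp only [norm_one, norm_neg, Complex.norm_I, one_pow, one_mul, neg_mul, Complex.neg_re,
    Complex.mul_re, Complex.I_re, Complex.I_im, zero_mul, zero_sub] at h1 h2 h3 h4
  have hre : (inner ℂ a b).re = 0 := by linarith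
  have him : (inner ℂ a b).im = 0 := by linarith
  have h0 : inner ℂ a b = 0 := Complex.ext hre him
  refine ⟨by rw [hre] at h1; linarith, fun t => ?_⟩
  rw [key t, h0]; simp

theorem growth {x : ℝ} (hx : 1 < x) :
    ∀ᶠ d : ℕ in atTop, 1 ≤ Real.exp (-Real.sqrt (d : ℝ)) * x ^ d := by
  have hl : 0 < Real.log x := Real.log_pos hx
  have ht : Tendsto (fun d : ℕ => Real.sqrt (d : ℝ)) atTop atTop :=
    Real.tendsto_sqrt_atTop.comp tendsto_natCast_atTop_atTop
  filter_upwards [ht.eventually (eventually_ge_atTop (1 / Real.log x))] with d hd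
  have h1 : x ^ d = Real.exp (d * Real.log x) := by
    rw [mul_comm, Real.exp_mul, Real.exp_log (by linarith), Real.rpow_natCast]
  rw [h1, ← Real.exp_add]
  apply Real.one_le_exp
  have h2 : (d : ℝ) = Real.sqrt d * Real.sqrt d := (Real.mul_self_sqrt (by positivity)).symm
  have h3 : 1 ≤ Real.sqrt d * Real.log x := by
    rw [div_le_iff₀ hl] at hd; exact hd
  have h4 : 0 ≤ Real.sqrt (d : ℝ) := Real.sqrt_nonneg _
  calc (0 : ℝ) = -Real.sqrt d + Real.sqrt d * 1 := by ring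
    _ ≤ -Real.sqrt d + Real.sqrt d * (Real.sqrt d * Real.log x) := by gcongr
    _ = -Real.sqrt d + (Real.sqrt d * Real.sqrt d) * Real.log x := by ring
    _ = _ := by rw [← h2]

theorem nb (n : ℕ) : HasNB (nbFun n) := by
  intro a b hb hab τ hτ
  rintro ⟨r, hr, h, hh, hgh⟩
  obtain ⟨hnorm, hform⟩ := affine_norm hab
  have hb0 : 0 < ‖b‖ ^ 2 := by positivity
  set u : ℕ → ℂ → ℂ := fun j t => (coef j : ℂ) * (inner ℂ (wseq n j) (a + t • b)) ^ ((j + 1)!)
    with hu
  set ρ : ℝ := Real.sqrt (‖a‖ ^ 2 + 9 / 16 * ‖b‖ ^ 2) with hρ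
  have hρ0 : 0 ≤ ρ := Real.sqrt_nonneg _
  have hρ1 : ρ < 1 := by
    rw [hρ, Real.sqrt_lt' one_pos]; linarith
  have hcoef0 : ∀ j, 0 ≤ coef j := fun j => by unfold coef; positivity
  have hcoef : Summable coef := by simpa using coef_summable 0
  have hub : ∀ j t R, ‖a + t • b‖ ≤ R → ‖u j t‖ ≤ coef j * R ^ ((j + 1)!) := by
    intro j t R hR
    simp only [hu]
    rw [norm_mul, norm_pow, Complex.norm_real, Real.norm_eq_abs, abs_of_nonneg (hcoef0 j)]
    apply mul_le_mul_of_nonneg_left _ (hcoef0 j)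
    apply pow_le_pow_left₀ (norm_nonneg _)
    refine (norm_inner_le_norm _ _).trans ?_
    calc ‖wseq n j‖ * ‖a + t • b‖ ≤ 1 * ‖a + t • b‖ := by
          gcongr
          exact wseq_le n j
      _ ≤ R := by rw [one_mul]; exact hR
  have hin : ∀ j t, ‖t‖ ≤ 3 / 4 → ‖u j t‖ ≤ coef j * ρ ^ ((j + 1)!) := by
    intro j t ht
    apply hub
    rw [hρ]
    apply Real.le_sqrt_of_sq_le
    rw [hform t]
    have : ‖t‖ ^ 2 ≤ 9 / 16 := by
      calc ‖t‖ ^ 2 ≤ (3 / 4) ^ 2 := by gcongr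
        _ = _ := by norm_num
    nlinarith
  have hout : ∀ j t R, 1 ≤ R → ‖t‖ ≤ R → ‖u j t‖ ≤ coef j * R ^ ((j + 1)!) := by
    intro j t R hR ht
    apply hub
    apply le_of_sq_le_sq _ (by linarith)
    rw [hform t]
    have h1 : ‖t‖ ^ 2 ≤ R ^ 2 := by gcongr
    have h2 : 1 ≤ R ^ 2 := one_le_pow₀ hR
    have h3 : 0 ≤ ‖a‖ ^ 2 := by positivity
    nlinarith
  have haff : Differentiable ℂ (fun t : ℂ => a + t • b) := by fun_prop
  have hud : ∀ j, Differentiable ℂ (u j) := by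
    intro j
    simp only [hu]
    have : Differentiable ℂ (fun t : ℂ => inner ℂ (wseq n j) (a + t • b)) :=
      (innerSL ℂ (wseq n j)).differentiable.comp haff
    exact (this.pow _).const_mul _
  have hball : ∀ t ∈ ball (0 : ℂ) 1, a + t • b ∈ ball (0 : Cn n) 1 := by
    intro t ht
    have ht' : ‖t‖ < 1 := by simpa using ht
    rw [mem_ball_zero_iff]
    apply lt_of_pow_lt_pow_left₀ 2 zero_le_one
    rw [hform t]
    have : ‖t‖ ^ 2 < 1 := pow_lt_one₀ (norm_nonneg _) ht' two_ne_zero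
    nlinarith
  have hgd : DifferentiableOn ℂ (fun t : ℂ => nbFun n (a + t • b)) (ball 0 1) := by
    have := (ser_differentiableOn (wseq_le n) adm_nb).comp haff.differentiableOn hball
    exact this
  obtain ⟨η, hη, hlim⟩ := Pool.Agent.Sx28.NBd.overconv (e := coef) hud hcoef hcoef0 hρ0 hρ1 hin hout
    (g := fun t => nbFun n (a + t • b)) (fun t _ => rfl) hgd hτ hr hh hgh
  set l0 : ℂ := (1 + η : ℝ) • τ with hl0
  set z0 : Cn n := a + l0 • b with hz0
  have hl0n : ‖l0‖ = 1 + η := by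
    rw [hl0, norm_smul, hτ, Real.norm_eq_abs, abs_of_pos (by linarith), mul_one]
  have hz1 : 1 < ‖z0‖ := by
    apply lt_of_pow_lt_pow_left₀ 2 (norm_nonneg _)
    rw [hz0, hform, hl0n, one_pow]
    have : 1 < (1 + η) ^ 2 := by nlinarith
    nlinarith
  set x : ℝ := (1 + ‖z0‖) / 2 with hx
  have hx1 : 1 < x := by rw [hx]; linarith
  have hx2 : x < ‖z0‖ := by rw [hx]; linarith
  -- a vector of the dense sequence with large inner product
  obtain ⟨i, hi⟩ : ∃ i, x < ‖inner ℂ ((TopologicalSpace.denseSeq (closedBall (0 : Cn n) 1) i :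
      closedBall (0 : Cn n) 1) : Cn n) z0‖ := by
    have hopen : IsOpen {w : closedBall (0 : Cn n) 1 | x < ‖inner ℂ (w : Cn n) z0‖} := by
      apply isOpen_lt continuous_const
      exact (continuous_subtype_val.inner continuous_const).norm
    have hne : {w : closedBall (0 : Cn n) 1 | x < ‖inner ℂ (w : Cn n) z0‖}.Nonempty := by
      have hpos : 0 < ‖z0‖ := by linarith
      refine ⟨⟨((‖z0‖⁻¹ : ℝ) : ℂ) • z0, ?_⟩, ?_⟩
      · rw [mem_closedBall_zero_iff, norm_smul, Complex.norm_real, norm_inv, norm_norm,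
          inv_mul_cancel₀ hpos.ne']
      · simp only [mem_ofPred_eq, inner_smul_left, inner_self_eq_norm_sq_to_K]
        rw [norm_mul, RCLike.norm_conj, Complex.norm_real, norm_inv, norm_norm, norm_pow]
        have : ‖((‖z0‖ : ℝ) : ℂ)‖ = ‖z0‖ := by rw [Complex.norm_real, norm_norm]
        change x < ‖z0‖⁻¹ * ‖((‖z0‖ : ℝ) : ℂ)‖ ^ 2
        rw [this, pow_two, ← mul_assoc, inv_mul_cancel₀ hpos.ne', one_mul]
        exact hx2
    obtain ⟨w, hwS, ⟨i, rfl⟩⟩ :=
      (TopologicalSpace.denseRange_denseSeq (closedBall (0 : Cn n) 1)).inter_open_nonempty _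
        hopen hne
    exact ⟨i, hwS⟩
  have hpair : Tendsto (fun m : ℕ => Nat.pair i m) atTop atTop :=
    tendsto_atTop_mono (fun m => Nat.right_le_pair i m) tendsto_id
  have hDt : Tendsto (fun k : ℕ => (k + 1)!) atTop atTop := by
    refine tendsto_atTop_mono (fun k => ?_) tendsto_id
    exact (Nat.le_succ k).trans (Nat.self_le_factorial _)
  have hl1 : Tendsto (fun m : ℕ => u (Nat.pair i m) l0) atTop (𝓝 0) := hlim.comp hpair
  have hl2 : ∀ᶠ m : ℕ in atTop, ‖u (Nat.pair i m) l0‖ < 1 := by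
    have := hl1.norm
    rw [norm_zero] at this
    exact this.eventually (gt_mem_nhds one_pos)
  have hl3 : ∀ᶠ m : ℕ in atTop, 1 ≤ Real.exp (-Real.sqrt (((Nat.pair i m + 1)! : ℕ) : ℝ)) *
      x ^ ((Nat.pair i m + 1)!) := (hDt.comp hpair).eventually (growth hx1)
  obtain ⟨m, hm2, hm3⟩ := (hl2.and hl3).exists
  have hw : wseq n (Nat.pair i m) = ((TopologicalSpace.denseSeq (closedBall (0 : Cn n) 1) i :
      closedBall (0 : Cn n) 1) : Cn n) := by
    unfold wseq; rw [Nat.unpair_pair]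
  have : ‖u (Nat.pair i m) l0‖ ≥ 1 := by
    simp only [hu]
    rw [hw, norm_mul, norm_pow, Complex.norm_real, Real.norm_eq_abs, abs_of_nonneg (hcoef0 _)]
    refine hm3.trans ?_
    unfold coef
    gcongr
  linarith

/-- **Full answer to Q2 (hence Q1)**: for every `n` there is a function in `A^∞(B)` (and in the
ball algebra) with property (NB). -/
theorem result (n : ℕ) : ∃ f : Cn n → ℂ, InBallAlgebra f ∧ InAInfinity f ∧ HasNB f := by
  refine ⟨nbFun n, ⟨ser_continuousOn (wseq_le n) adm_nb, ser_differentiableOn (wseq_le n) adm_nb⟩,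
    ⟨ser_differentiableOn (wseq_le n) adm_nb, fun l => ?_⟩, nb n⟩
  obtain ⟨γ', m', h', he⟩ := iterPD_ser (wseq_le n) adm_nb l
  exact ⟨ser (wseq n) γ' m', ser_continuousOn (wseq_le n) h', he⟩

end Pool.Agent.Results.MP_ca9574_an.NaturalBoundary
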